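import Pool.Agent.Helper3.T5.Defs
import Pool.Agent.Helper3.T4.Decode

/-!
# T5, block J0: degrees (J2a, J2b)
-/

namespace Pool.Agent.Helper79.T5

open Finset Pool.Agent.Helper27.T4 Pool.Agent.Helper3.T4 Pool.Agent.Helper3.T5

/-- pairs of numbers, each `1` or a prime, with given product -/
theorem card_prod_le (S : Finset (ℕ × ℕ)) (m : ℕ)
    (hS : ∀ z ∈ S, (z.1 = 1 ∨ z.1.Prime) ∧ (z.2 = 1 ∨ z.2.Prime) ∧ z.1 * z.2 = m) :
    S.card ≤ 2 := by
  classical
  rcases S.eq_empty_or_nonempty with h | ⟨z0, hz0⟩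
  · rw [h, card_empty]
    omega
  have key : S ⊆ {z0, (z0.2, z0.1)} := by
    intro z hz
    obtain ⟨h1, h2, h3⟩ := hS z hz
    obtain ⟨k1, k2, k3⟩ := hS z0 hz0
    have h : z.1 * z.2 = z0.1 * z0.2 := by rw [h3, k3]
    rw [mem_insert, mem_singleton, Prod.ext_iff, Prod.ext_iff]
    obtain ⟨a, b⟩ := z
    obtain ⟨c, d⟩ := z0
    simp only at h1 h2 k1 k2 h ⊢
    rcases h1 with rfl | h1
    · rw [one_mul] at h
      rcases k1 with rfl | k1
      · left
        exact ⟨rfl, by rw [h, one_mul]⟩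
      · rcases k2 with rfl | k2
        · right
          exact ⟨rfl, by rw [h, mul_one]⟩
        · exfalso
          rcases h2 with rfl | h2
          · have := Nat.eq_one_of_mul_eq_one_right h.symm
            exact k1.one_lt.ne' this
          · exact Nat.not_prime_mul k1.one_lt.ne' k2.one_lt.ne' (h ▸ h2)
    · rcases h2 with rfl | h2
      · rw [mul_one] at h
        rcases k1 with rfl | k1
        · right
          exact ⟨by rw [h, one_mul], rfl⟩
        · rcases k2 with rfl | k2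
          · left
            exact ⟨by rw [h, mul_one], rfl⟩
          · exfalso
            exact Nat.not_prime_mul k1.one_lt.ne' k2.one_lt.ne' (h ▸ h1)
      · rcases k1 with rfl | k1
        · exfalso
          rw [one_mul] at h
          rcases k2 with rfl | k2
          · have := Nat.eq_one_of_mul_eq_one_right h
            exact h1.one_lt.ne' this
          · exact Nat.not_prime_mul h1.one_lt.ne' h2.one_lt.ne' (h ▸ k2)
        · rcases k2 with rfl | k2
          · exfalso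
            rw [mul_one] at h
            exact Nat.not_prime_mul h1.one_lt.ne' h2.one_lt.ne' (h ▸ k1)
          · have hd : a ∣ c * d := ⟨b, h.symm⟩
            rcases (Nat.Prime.dvd_mul h1).1 hd with h4 | h4
            · have h5 : a = c := (Nat.prime_dvd_prime_iff_eq h1 k1).1 h4
              left
              subst h5
              exact ⟨rfl, Nat.eq_of_mul_eq_mul_left h1.pos h⟩
            · have h5 : a = d := (Nat.prime_dvd_prime_iff_eq h1 k2).1 h4
              right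
              subst h5
              rw [mul_comm c a] at h
              exact ⟨rfl, Nat.eq_of_mul_eq_mul_left h1.pos h⟩
  refine (card_le_card key).trans ?_
  exact card_insert_le _ _

/-- pairs of numbers, each `1` or a prime, with given quotient of the product and given sum of
the indices -/
theorem card_pairs_quot_one {p : ℕ} (hp : p.Prime) (hp2 : p ≠ 2) (b q : ℕ)
    (t : ZMod (p ^ b)) (S : Finset (ℕ × ℕ))
    (hS : ∀ z ∈ S, (z.1 = 1 ∨ z.1.Prime) ∧ (z.2 = 1 ∨ z.2.Prime) ∧ z.1.Coprime p ∧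
      z.2.Coprime p ∧ (z.1 * z.2) / p ^ (b + 1) = q ∧ Lg p b z.1 + Lg p b z.2 = t) :
    S.card ≤ 2 * (p - 1) := by
  classical
  refine le_trans (Finset.card_le_mul_card_image_of_maps_to
    (f := fun z : ℕ × ℕ => (z.1 * z.2) % p ^ (b + 1))
    (t := ((Finset.range (p ^ (b + 1))).filter (fun m => m.Coprime p ∧ Lg p b m = t))) ?_ 2 ?_)
    (Nat.mul_le_mul_left 2 (card_Lg_le hp hp2 b t))
  · intro z hz
    obtain ⟨_, _, h3, h4, _, h7⟩ := hS z hz
    have hc : (z.1 * z.2).Coprime p := Nat.Coprime.mul_left h3 h4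
    rw [Finset.mem_filter, Finset.mem_range]
    refine ⟨Nat.mod_lt _ (pow_pos hp.pos _), mod_coprime b _ hc, ?_⟩
    rw [Lg_mod, Lg_mul hp hp2 b _ _ h3 h4, h7]
  · intro m _
    refine card_prod_le _ (m + p ^ (b + 1) * q) ?_
    intro z hz
    rw [Finset.mem_filter] at hz
    obtain ⟨hz1, hz2⟩ := hz
    obtain ⟨h1, h2, _, _, h5, _⟩ := hS z hz1
    refine ⟨h1, h2, ?_⟩
    rw [← hz2, ← h5]
    exact (Nat.mod_add_div _ _).symm

theorem sq_lt_max {p x a : ℕ} (hp : p.Prime) (h : x = 1 ∨ (x.Prime ∧ x ^ 2 < p ^ a)) :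
    x ^ 2 < p ^ (max a 1) := by
  rcases h with rfl | ⟨_, h⟩
  · rw [one_pow]
    exact Nat.one_lt_pow (by omega) hp.one_lt
  · exact lt_of_lt_of_le h (Nat.pow_le_pow_right hp.pos (le_max_left _ _))

theorem mul_lt_of {p x y b : ℕ} (hp : p.Prime) (hx : x = 1 ∨ (x.Prime ∧ x ^ 2 < p ^ b))
    (hy : y = 1 ∨ (y.Prime ∧ y ^ 2 < p ^ b)) : x * y < p ^ (b + 1) := by
  have h1 := sq_lt_max hp hx
  have h2 := sq_lt_max hp hy
  have h3 : (x * y) ^ 2 < (p ^ (max b 1)) ^ 2 := by
    rw [mul_pow, sq (p ^ _)]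
    exact Nat.mul_lt_mul'' h1 h2
  have h4 : x * y < p ^ (max b 1) := lt_of_pow_lt_pow_left₀ 2 (Nat.zero_le _) h3
  exact lt_of_lt_of_le h4 (Nat.pow_le_pow_right hp.pos (by omega))

variable {ι κ : Type*} [Fintype ι] [DecidableEq ι] {M : MP ι κ} {Mk : κ → ℕ}

/-- the component `i` of the code, at a lower level -/
theorem cd_cast (hM : M.Ok Mk) (w : κ → ℕ) {x : ι → ℕ} (hx : x ∈ M.X) (i : ι) {b : ℕ}
    (hb : b ≤ M.e i) : ((M.cd hM w x : ℕ) : ZMod (M.p i ^ b)) =
      Lg (M.p i) b (x i) + ((w (M.key i x) : ℕ) : ZMod (M.p i ^ b)) := by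
  have h1 := cv_cast_comp hM.prime hM.inj M.e (fun i => Lg (M.p i) (M.e i) (x i) + M.ρ w i x) i
  have h2 := congrArg (ZMod.castHom (pow_dvd_pow (M.p i) hb) (ZMod (M.p i ^ b))) h1
  rw [map_natCast] at h2
  rw [MP.cd, h2]
  simp only [map_add]
  rw [Lg_red (hM.prime i) (hM.odd i) _ _ _ (hM.adm x hx i).1 hb, MP.ρ, map_natCast]

theorem cd'_cast (hM : M.Ok Mk) (w : κ → ℕ) {x : ι → ℕ} (hx : x ∈ M.X') (i : ι) {b : ℕ}
    (hb : b ≤ M.e' i) : ((M.cd' hM w x : ℕ) : ZMod (M.p i ^ b)) =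
      Lg (M.p i) b (x i) + ((w (M.key' i x) : ℕ) : ZMod (M.p i ^ b)) := by
  have h1 := cv_cast_comp hM.prime hM.inj M.e' (fun i => Lg (M.p i) (M.e' i) (x i) + M.ρ' w i x) i
  have h2 := congrArg (ZMod.castHom (pow_dvd_pow (M.p i) hb) (ZMod (M.p i ^ b))) h1
  rw [map_natCast] at h2
  rw [MP.cd', h2]
  simp only [map_add]
  rw [Lg_red (hM.prime i) (hM.odd i) _ _ _ (hM.adm' x hx i).1 hb, MP.ρ', map_natCast]

/-- decoding of pairs of vectors with the key families given on one side -/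
theorem deg_gen (hM : M.Ok Mk) (hS : M.St) (w : κ → ℕ) (n : ℕ)
    (S : Finset ((ι → ℕ) × (ι → ℕ))) (hsub : S ⊆ M.prs hM w M.c' n)
    (hg : (∀ z ∈ S, ∀ z' ∈ S, ∀ j ∈ M.P, z.1 j = z'.1 j) ∨
      (∀ z ∈ S, ∀ z' ∈ S, ∀ j ∈ M.P, z.2 j = z'.2 j)) : S.card ≤ M.C := by
  classical
  set φ : (ι → ℕ) × (ι → ℕ) → ι → ℕ × ℕ := fun z i => (z.1 i, z.2 i) with hφ
  have hinj : Function.Injective φ := by
    intro z z' h
    refine Prod.ext (funext fun i => ?_) (funext fun i => ?_)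
    · exact congrArg Prod.fst (congrFun h i)
    · exact congrArg Prod.snd (congrFun h i)
  rw [← card_image_of_injective S hinj, MP.C]
  refine card_le_prod_of_rank M.rk _ _ ?_
  intro f g hg0
  obtain ⟨z0, hz0, rfl⟩ := mem_image.1 hg0
  have hp := hM.prime f
  have hp2 := hM.odd f
  set W := (((S.image φ).filter (fun g' => ∀ i, M.rk i < M.rk f → g' i = φ z0 i)).image
      (fun g' => g' f)) with hW
  -- the elements of `W`
  have hmem : ∀ u ∈ W, ∃ z ∈ S, z.1 f = u.1 ∧ z.2 f = u.2 ∧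
      Lg (M.p f) (M.c' f) u.1 + Lg (M.p f) (M.c' f) u.2 =
        Lg (M.p f) (M.c' f) (z0.1 f) + Lg (M.p f) (M.c' f) (z0.2 f) := by
    intro u hu
    rw [hW, mem_image] at hu
    obtain ⟨g', hg', rfl⟩ := hu
    rw [mem_filter, mem_image] at hg'
    obtain ⟨⟨z, hz, rfl⟩, hlow⟩ := hg'
    refine ⟨z, hz, rfl, rfl, ?_⟩
    have hz1 := hsub hz
    have hz2 := hsub hz0
    rw [MP.prs, mem_filter, mem_product] at hz1 hz2
    obtain ⟨⟨hx, hx'⟩, hc⟩ := hz1
    obtain ⟨⟨hx0, hx0'⟩, hc0⟩ := hz2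
    have e1 := (ZMod.natCast_eq_natCast_iff _ _ _).2 (hc f)
    have e2 := (ZMod.natCast_eq_natCast_iff _ _ _).2 (hc0 f)
    rw [← e2, Nat.cast_add, Nat.cast_add,
      cd_cast hM w hx f ((hM.cc f).trans (hM.ce f)), cd_cast hM w hx0 f ((hM.cc f).trans (hM.ce f)),
      cd'_cast hM w hx' f (hM.ce' f), cd'_cast hM w hx0' f (hM.ce' f)] at e1
    have k1 : M.key f z.1 = M.key f z0.1 := hM.dep f _ _ (fun j hj => by
      have := hlow j (hM.rank f j (mem_union_left _ hj))
      exact congrArg Prod.fst this)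
    have k2 : M.key' f z.2 = M.key' f z0.2 := hM.dep' f _ _ (fun j hj => by
      have := hlow j (hM.rank f j (mem_union_right _ hj))
      exact congrArg Prod.snd this)
    rw [k1, k2] at e1
    have e3 : (Lg (M.p f) (M.c' f) (z.1 f) + Lg (M.p f) (M.c' f) (z.2 f)) +
        (((w (M.key f z0.1) : ℕ) : ZMod (M.p f ^ M.c' f)) +
          ((w (M.key' f z0.2) : ℕ) : ZMod (M.p f ^ M.c' f))) =
        (Lg (M.p f) (M.c' f) (z0.1 f) + Lg (M.p f) (M.c' f) (z0.2 f)) +
        (((w (M.key f z0.1) : ℕ) : ZMod (M.p f ^ M.c' f)) +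
          ((w (M.key' f z0.2) : ℕ) : ZMod (M.p f ^ M.c' f))) := by
      linear_combination e1
    exact add_right_cancel e3
  have hadm : ∀ z ∈ S, ((z.1 f).Coprime (M.p f) ∧
      (z.1 f = 1 ∨ ((z.1 f).Prime ∧ (z.1 f) ^ 2 < M.p f ^ M.c f))) ∧
      ((z.2 f).Coprime (M.p f) ∧
      (z.2 f = 1 ∨ ((z.2 f).Prime ∧ (z.2 f) ^ 2 < M.p f ^ M.c' f))) := by
    intro z hz
    have hz1 := hsub hz
    rw [MP.prs, mem_filter, mem_product] at hz1
    exact ⟨hM.adm _ hz1.1.1 f, hM.adm' _ hz1.1.2 f⟩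
  by_cases hf : f ∈ M.P
  · rcases hg with hg | hg
    · have h3 : W.card ≤ (M.p f - 1) * M.p f ^ ((max (M.c' f) 1 - 2 * M.c' f) / 2) := by
        rw [← card_image_of_injOn (s := W) (f := Prod.snd)]
        · refine card_single_le hp hp2 _ _ (Lg (M.p f) (M.c' f) (z0.2 f)) _ ?_
          intro y hy
          rw [mem_image] at hy
          obtain ⟨u, hu, rfl⟩ := hy
          obtain ⟨z, hz, h1, h2, h3⟩ := hmem u hu
          obtain ⟨-, k1, k2⟩ := hadm z hz
          rw [h2] at k1 k2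
          refine ⟨k1, sq_lt_max hp k2, ?_⟩
          rw [← h1, hg z hz z0 hz0 f hf] at h3
          exact add_left_cancel h3
        · intro u hu u' hu' huu
          obtain ⟨z, hz, h1, h2, -⟩ := hmem u hu
          obtain ⟨z', hz', h1', h2', -⟩ := hmem u' hu'
          exact Prod.ext (by rw [← h1, ← h1', hg z hz z' hz' f hf]) huu
      have h4 : (max (M.c' f) 1 - 2 * M.c' f) / 2 = 0 := by omega
      rw [h4, pow_zero, mul_one] at h3
      omega
    · have hgr := hS.grow f hf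
      have h3 : W.card ≤ (M.p f - 1) * M.p f ^ ((max (M.c f) 1 - 2 * M.c' f) / 2) := by
        rw [← card_image_of_injOn (s := W) (f := Prod.fst)]
        · refine card_single_le hp hp2 _ _ (Lg (M.p f) (M.c' f) (z0.1 f)) _ ?_
          intro y hy
          rw [mem_image] at hy
          obtain ⟨u, hu, rfl⟩ := hy
          obtain ⟨z, hz, h1, h2, h3⟩ := hmem u hu
          obtain ⟨⟨k1, k2⟩, -⟩ := hadm z hz
          rw [h1] at k1 k2
          refine ⟨k1, sq_lt_max hp k2, ?_⟩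
          rw [← h2, hg z hz z0 hz0 f hf] at h3
          exact add_right_cancel h3
        · intro u hu u' hu' huu
          obtain ⟨z, hz, h1, h2, -⟩ := hmem u hu
          obtain ⟨z', hz', h1', h2', -⟩ := hmem u' hu'
          exact Prod.ext huu (by rw [← h2, ← h2', hg z hz z' hz' f hf])
      have h4 : (max (M.c f) 1 - 2 * M.c' f) / 2 = 0 := by omega
      rw [h4, pow_zero, mul_one] at h3
      omega
  · have hst := hS.stat f hf
    refine card_pairs_quot_one hp hp2 (M.c' f) 0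
      (Lg (M.p f) (M.c' f) (z0.1 f) + Lg (M.p f) (M.c' f) (z0.2 f)) W ?_
    intro u hu
    obtain ⟨z, hz, h1, h2, h3⟩ := hmem u hu
    obtain ⟨⟨k1, k2⟩, k3, k4⟩ := hadm z hz
    rw [hst] at k2
    rw [h1] at k1 k2
    rw [h2] at k3 k4
    refine ⟨k2.imp id And.left, k4.imp id And.left, k1, k3, ?_, h3⟩
    exact Nat.div_eq_of_lt (mul_lt_of hp k2 k4)

open Classical in
/-- J2a: degree of a vector of the upper state -/
theorem deg_left (hM : M.Ok Mk) (hS : M.St) (w : κ → ℕ) (n : ℕ) (a : ι → ℕ) :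
    ((M.prs hM w M.c' n).filter (fun z => ∀ j ∈ M.P, z.1 j = a j)).card ≤ M.C := by
  refine deg_gen hM hS w n _ (filter_subset _ _) (Or.inl ?_)
  intro z hz z' hz' j hj
  rw [mem_filter] at hz hz'
  rw [hz.2 j hj, hz'.2 j hj]

open Classical in
/-- J2b: degree of a vector of the lower state -/
theorem deg_right (hM : M.Ok Mk) (hS : M.St) (w : κ → ℕ) (n : ℕ) (a : ι → ℕ) :
    ((M.prs hM w M.c' n).filter (fun z => ∀ j ∈ M.P, z.2 j = a j)).card ≤ M.C := by
  refine deg_gen hM hS w n _ (filter_subset _ _) (Or.inr ?_)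
  intro z hz z' hz' j hj
  rw [mem_filter] at hz hz'
  rw [hz.2 j hj, hz'.2 j hj]

end Pool.Agent.Helper79.T5
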